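import Pool.Agent.helper45.TC.Spec

set_option autoImplicit false

open Polynomial Finset Pool.Agent.helper27.PC

namespace Pool.Agent.TC

theorem CVG_fock (m : ℕ) : ∀ (l : List ℕ) (k : ℕ) (u : St →₀ ℤ[X]),
    fockT true m k l u = fock m k l u := by
  intro l
  induction l with
  | nil => intro k u; rfl
  | cons a l ih =>
    intro k u
    show fockT true m (k + a) l _ = fock m (k + a) l _
    rw [ih]
    rfl

/-- the entries of `yv` are monomials -/
theorem CVG_yv {s a : ℕ} (b : ℕ) (hs : 1 ≤ s) (hsa : s ≤ a) (S : St) : ∃ (c : ℤ) (e : ℕ), yv s a b S = C c * X ^ e := by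
  have h1 : yv s a b = vec (s + a + b) [s, a] := by
    unfold yv vecT vec
    exact CVG_fock _ _ _ _
  rw [h1]
  refine (SD_vec (s + a + b) 2 [s, a] rfl ?_ ?_ ?_).2 S
  · intro x hx
    simp only [List.mem_cons, List.not_mem_nil, or_false] at hx
    omega
  · simp [hsa]
  · intro x hx
    simp only [List.mem_cons, List.not_mem_nil, or_false] at hx
    rcases hx with rfl | rfl
    · have h2 : ([x, a].filter (· < x)) = [] := by
        rw [List.filter_eq_nil_iff]
        intro y hy
        simp only [List.mem_cons, List.not_mem_nil, or_false] at hy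
        have : ¬ y < x := by omega
        simpa using this
      rw [h2, List.sum_nil]
      omega
    · by_cases h : s < x
      · have h2 : ([s, x].filter (· < x)) = [s] := by
          simp [h]
        rw [h2]
        simpa using h
      · have h2 : ([s, x].filter (· < x)) = [] := by
          simp [h]
        rw [h2]
        simpa using (by omega : 0 < x)

theorem CVG_nn {s a : ℕ} (b : ℕ) (hs : 1 ≤ s) (hsa : s ≤ a) (S : St) (l : Lab) (k : ℕ) :
    0 ≤ (yv s a b S ^ 2 * wl l ^ 2).coeff k := by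
  obtain ⟨c, e, h⟩ := CVG_yv b hs hsa S
  rw [h, wl_sq, mul_pow, ← C_pow, ← pow_mul, mul_assoc, ← pow_add, coeff_C_mul, coeff_X_pow]
  split_ifs
  · rw [mul_one]; positivity
  · simp

theorem CVG : CVG_stmt := by
  classical
  intro s a b hs hsa ι K f e m hinj hK k
  set F : St → Lab → ℤ := fun S l => (yv s a b S ^ 2 * wl l ^ 2).coeff k with hF
  have hF0 : ∀ S l, 0 ≤ F S l := fun S l => CVG_nn b hs hsa S l k
  set r : Finset (St × Lab) := (yv s a b).support.biUnion fun S => (addable b S).image (fun l => (S, l)) with hr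
  have hmem : ∀ p : St × Lab, p ∈ r ↔ p.1 ∈ (yv s a b).support ∧ p.2 ∈ addable b p.1 := by
    rintro ⟨S, l⟩
    rw [hr, mem_biUnion]
    constructor
    · rintro ⟨S', hS', h⟩
      obtain ⟨l', hl', h2⟩ := mem_image.1 h
      simp only [Prod.mk.injEq] at h2
      obtain ⟨rfl, rfl⟩ := h2
      exact ⟨hS', hl'⟩
    · rintro ⟨h1, h2⟩
      exact ⟨S, h1, mem_image.2 ⟨l, h2, rfl⟩⟩
  have h1 : (DD s a b).coeff k = ∑ p ∈ r, F p.1 p.2 := by
    rw [Finset.sum_finset_product' r (yv s a b).support (fun S => addable b S) hmem]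
    unfold DD
    rw [finsetSum_coeff]
    refine sum_congr rfl fun S _ => ?_
    rw [mul_sum, finsetSum_coeff]
  have h2 : (∑ i ∈ K, C (m i) * X ^ e i : ℤ[X]).coeff k ≤ ∑ i ∈ K, F (f i).1 (f i).2 := by
    rw [finsetSum_coeff]
    refine sum_le_sum fun i hi => ?_
    obtain ⟨-, ε, hε, h3⟩ := hK i hi
    simp only [hF]
    rw [h3, coeff_C_mul, coeff_C_mul, coeff_X_pow]
    split_ifs
    · rw [mul_one, mul_one]; exact hε
    · simp
  rw [h1]
  refine h2.trans ?_
  have h3 : ∑ i ∈ K, F (f i).1 (f i).2 = ∑ p ∈ K.image f, F p.1 p.2 := by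
    rw [sum_image hinj]
  have h4 : ∑ p ∈ K.image f, F p.1 p.2 = ∑ p ∈ (K.image f).filter (fun p => p ∈ r), F p.1 p.2 := by
    rw [sum_filter]
    refine sum_congr rfl fun p hp => ?_
    split_ifs with h
    · rfl
    · obtain ⟨i, hi, rfl⟩ := mem_image.1 hp
      have h5 : yv s a b (f i).1 = 0 := by
        by_contra h6
        exact h ((hmem _).2 ⟨Finsupp.mem_support_iff.2 h6, (hK i hi).1⟩)
      simp only [hF]
      rw [h5]
      simp
  rw [h3, h4]
  refine sum_le_sum_of_subset_of_nonneg ?_ (fun p _ _ => hF0 _ _)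
  intro p hp
  exact (mem_filter.1 hp).2

end Pool.Agent.TC
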