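import Pool.Agent.helper45.TC.Spec

set_option autoImplicit false

open Polynomial Finset Pool.Agent.helper27.PC

namespace Pool.Agent.TC

theorem MON_coeff (T : Finset ℕ) (d : ℕ → ℤ) {e : ℕ} (he : e ∈ T) :
    (∑ e' ∈ T, C (d e') * X ^ e' : ℤ[X]).coeff e = d e := by
  rw [finsetSum_coeff, sum_eq_single_of_mem e he]
  · rw [coeff_C_mul, coeff_X_pow, if_pos rfl, mul_one]
  · intro b _ hb
    rw [coeff_C_mul, coeff_X_pow, if_neg (Ne.symm hb), mul_zero]

theorem MON_mono {p : ℤ[X]} (h : ∃ (c : ℤ) (e : ℕ), p = C c * X ^ e) {e : ℕ} (he : p.coeff e ≠ 0) :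
    p = C (p.coeff e) * X ^ e := by
  obtain ⟨c, e', rfl⟩ := h
  rw [coeff_C_mul, coeff_X_pow] at he ⊢
  split_ifs at he ⊢ with h
  · rw [h, mul_one]
  · simp at he

theorem MON : MON_stmt := by
  classical
  intro ι I f T d hf hcard hd hsum
  have h1 : ∀ e ∈ T, ∃ i ∈ I, (f i).coeff e ≠ 0 := by
    intro e he
    by_contra hno
    push Not at hno
    have h2 : (∑ i ∈ I, f i).coeff e = (∑ e ∈ T, C (d e) * X ^ e : ℤ[X]).coeff e := by rw [hsum]
    rw [MON_coeff T d he, finsetSum_coeff, sum_eq_zero hno] at h2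
    exact hd e he h2.symm
  rcases isEmpty_or_nonempty ι with hι | hι
  · have hT : T = ∅ := by
      rw [eq_empty_iff_forall_notMem]
      intro e he
      obtain ⟨i, -, -⟩ := h1 e he
      exact hι.false i
    have hI : I = ∅ := by
      rw [eq_empty_iff_forall_notMem]
      intro i _
      exact hι.false i
    rw [hT, hI, sum_empty, sum_empty]
  choose! g hg1 hg2 using h1
  have hfg : ∀ e ∈ T, f (g e) = C ((f (g e)).coeff e) * X ^ e := fun e he => MON_mono (hf _ (hg1 e he)) (hg2 e he)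
  have hinj : Set.InjOn g T := by
    intro e he e' he' h
    by_contra hne
    have h2 := hg2 e' he'
    rw [← h, hfg e he, coeff_C_mul, coeff_X_pow, if_neg (Ne.symm hne), mul_zero] at h2
    exact h2 rfl
  have himg : T.image g = I := by
    apply eq_of_subset_of_card_le
    · intro i hi
      obtain ⟨e, he, rfl⟩ := mem_image.1 hi
      exact hg1 e he
    · rw [card_image_of_injOn hinj]
      exact hcard
  rw [← himg, sum_image hinj] at hsum ⊢
  refine sum_congr rfl fun e he => ?_
  have h3 : (f (g e)).coeff e = d e := by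
    have h4 : ∑ x ∈ T, f (g x) = ∑ x ∈ T, C ((f (g x)).coeff x) * X ^ x := sum_congr rfl hfg
    rw [h4] at hsum
    have h5 : (∑ x ∈ T, C ((f (g x)).coeff x) * X ^ x : ℤ[X]).coeff e = (∑ e ∈ T, C (d e) * X ^ e : ℤ[X]).coeff e := by
      rw [hsum]
    rw [MON_coeff T d he, MON_coeff T (fun x => (f (g x)).coeff x) he] at h5
    exact h5
  rw [hfg e he, h3, mul_pow, ← C_pow, ← pow_mul, mul_comm e 2]

end Pool.Agent.TC
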