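import Pool.Agent.helper45.TC.Spec
import Pool.Agent.helper80.PC2.LALG

set_option autoImplicit false

open Polynomial Finset Pool.Agent.helper27.PC

namespace Pool.Agent.TC

theorem RIV_pick (u : St →₀ ℤ[X]) (T : St) (c : ℤ[X]) :
    ∑ S ∈ u.support, (u S * if T = S then c else 0) = c * u T := by
  classical
  have h1 : ∀ S ∈ u.support, (u S * if T = S then c else 0) = if T = S then c * u T else 0 := by
    intro S _
    split_ifs with h
    · rw [h, mul_comm]
    · rw [mul_zero]
  rw [sum_congr rfl h1, sum_ite_eq]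
  split_ifs with h
  · rfl
  · rw [Finsupp.notMem_support_iff.1 h, mul_zero]

theorem RIV : RIV_stmt := by
  intro w a u S ha
  rw [LALG_Rib_apply]
  have h1 : ∀ T ∈ u.support, u T * LALG_kR w a T S =
      ∑ m ∈ S.filter (fun m => a ≤ m.2 ∧ dn a m ∉ S),
        (u T * if insert (dn a m) (S.erase m) = T then (-1) ^ cnt S (dn a m) a * w (dn a m) else 0) := by
    intro T _
    rw [LALG_kernel w ha]
    unfold LALG_kL
    rw [mul_sum]
  rw [sum_congr rfl h1, sum_comm]
  exact sum_congr rfl fun m _ => RIV_pick u _ _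

theorem LOV : LOV_stmt := by
  intro w b u R hb
  rw [LALG_Low_apply]
  have h1 : ∀ T ∈ u.support, u T * LALG_kL w b T R =
      ∑ l ∈ addable b R, (u T * if move b R l = T then (-1) ^ cnt R l b * w l else 0) := by
    intro T _
    rw [← LALG_kernel w hb]
    unfold LALG_kR
    rw [mul_sum]
  rw [sum_congr rfl h1, sum_comm]
  exact sum_congr rfl fun m _ => RIV_pick u _ _

end Pool.Agent.TC
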