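import Pool.Agent.helper45.TC.Spec
import Pool.Agent.helper80.PC2.LALG

set_option autoImplicit false

open Polynomial Finset Pool.Agent.helper27.PC

namespace Pool.Agent.TC

theorem SUP_rib (w : Lab → ℤ[X]) (a : ℕ) (u : St →₀ ℤ[X]) (T : St) (h : Rib w a u T ≠ 0) :
    ∃ (S : St) (l : Lab), u S ≠ 0 ∧ l ∈ addable a S ∧ T = move a S l := by
  rw [LALG_Rib_apply] at h
  obtain ⟨S, hS, h1⟩ := exists_ne_zero_of_sum_ne_zero h
  have h2 := right_ne_zero_of_mul h1
  unfold LALG_kR at h2
  obtain ⟨l, hl, h3⟩ := exists_ne_zero_of_sum_ne_zero h2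
  split_ifs at h3 with h4
  · exact ⟨S, l, Finsupp.mem_support_iff.1 hS, hl, h4.symm⟩
  · exact absurd rfl h3

/-- same bead moved twice -/
theorem SUP_same {n s a : ℕ} {l : Lab} (h : up s l ∉ vac n) :
    move a (move s (vac n) l) (up s l) = move (a + s) (vac n) l := by
  ext x
  rw [mem_mv, mem_mv, mem_mv]
  have e : up a (up s l) = up (a + s) l := by
    unfold up
    simp only
    rw [add_assoc, add_comm s a]
  rw [e]
  constructor
  · rintro (h1 | ⟨h1, h2 | h2⟩)
    · exact Or.inl h1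
    · exact absurd h2 h1
    · exact Or.inr h2
  · rintro (h1 | h1)
    · exact Or.inl h1
    · refine Or.inr ⟨?_, Or.inr h1⟩
      rintro rfl
      exact h h1.2

/-- one bead moved to the empty place of the other -/
theorem SUP_chain {n s a : ℕ} {l l' : Lab} (hl : l ∈ vac n) (hll : up a l' = l) (ha : 1 ≤ a) :
    move a (move s (vac n) l) l' = move (a + s) (vac n) l' := by
  have hne : l ≠ l' := by
    rintro rfl
    have := congrArg Prod.snd hll
    unfold up at this
    simp only at this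
    omega
  have e : up (a + s) l' = up s l := by
    rw [← hll]
    unfold up
    simp only
    rw [add_assoc]
  ext x
  rw [mem_mv, mem_mv, mem_mv, e, hll]
  constructor
  · rintro (h1 | ⟨h1, h2 | ⟨h2, h3⟩⟩)
    · rw [h1]
      exact Or.inr ⟨hne, hl⟩
    · exact Or.inl h2
    · exact Or.inr ⟨h1, h3⟩
  · rintro (h1 | ⟨h1, h2⟩)
    · by_cases h3 : x = l'
      · exfalso
        have h4 := congrArg Prod.snd (h1.symm.trans h3)
        have h5 := congrArg Prod.snd hll
        unfold up at h4 h5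
        simp only at h4 h5
        omega
      · exact Or.inr ⟨h3, Or.inl h1⟩
    · by_cases h3 : x = l
      · exact Or.inl h3
      · exact Or.inr ⟨h1, Or.inr ⟨h3, h2⟩⟩

theorem SUP : SUP_stmt := by
  intro s a b hs hsa S hS
  rw [yv_eq] at hS
  obtain ⟨S₁, l₁, hS₁, hl₁, rfl⟩ := SUP_rib _ _ _ _ hS
  obtain ⟨S₀, l₀, hS₀, hl₀, rfl⟩ := SUP_rib _ _ _ _ hS₁
  have h0 : S₀ = vac (s + a + b) := by
    by_contra h
    exact hS₀ (Finsupp.single_eq_of_ne h)
  subst h0
  rw [mem_ad, mem_vac', mem_vac'] at hl₀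
  obtain ⟨c, x⟩ := l₀
  obtain ⟨h1, h2⟩ := hl₀
  unfold up at h2
  simp only [not_lt] at h1 h2
  obtain ⟨i, rfl⟩ : ∃ i, x = a + b + i := ⟨x - (a + b), by omega⟩
  have hi : i < s := by omega
  have hup : up s (c, a + b + i) ∉ vac (s + a + b) := by
    rw [mem_vac']
    unfold up
    simp only
    omega
  rw [mem_ad, mem_mv, mem_mv, mem_vac', mem_vac'] at hl₁
  obtain ⟨h3, h4⟩ := hl₁
  rcases h3 with h3 | ⟨h3, h5⟩
  · subst h3
    refine Or.inl ⟨c, i, hi, Or.inl ?_⟩
    rw [SUP_same hup]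
    rfl
  · push Not at h4
    obtain ⟨h6, h7⟩ := h4
    by_cases h8 : up a l₁ = (c, a + b + i)
    · refine Or.inl ⟨c, i, hi, Or.inr ?_⟩
      rw [SUP_chain (by rw [mem_vac']; exact h1) h8 (by omega)]
      unfold D3
      have e : l₁ = (c, b + i) := by
        obtain ⟨c', x'⟩ := l₁
        unfold up at h8
        simp only [Prod.mk.injEq] at h8 ⊢
        exact ⟨h8.1, by omega⟩
      rw [e]
    · have h9 := h7 h8
      obtain ⟨c', x'⟩ := l₁
      unfold up at h6 h9
      simp only at h5 h6 h9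
      obtain ⟨k, rfl⟩ : ∃ k, x' = s + b + k := ⟨x' - (s + b), by omega⟩
      exact Or.inr ⟨c, c', i, k, hi, by omega, fun h => h3 h.symm, fun h => h6 h.symm, rfl⟩

end Pool.Agent.TC
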