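import Pool.Agent.helper45.TC.Spec

/-!
# Row TC1 of project TC: the case `b < a + s`
-/

set_option autoImplicit false

open Polynomial Finset Pool.Agent.helper27.PC

namespace Pool.Agent.TC

theorem TC1 (hGEN : GEN_stmt) (hCLS : CLS_stmt) (hQAD : QAD_stmt) (hCOV : COV_stmt) : TC1_stmt := by
  classical
  intro s a b hs hsa hab hba hev k
  obtain ⟨t, ht⟩ : ∃ t, t = a + s - b := ⟨_, rfl⟩
  obtain ⟨d, hd⟩ := hev
  have hinj : ∀ p ∈ (univ : Finset Bool) ×ˢ range t, ∀ p' ∈ (univ : Finset Bool) ×ˢ range t,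
      move t (vac (s + a + b)) (p.1, 2 * b + p.2) = move t (vac (s + a + b)) (p'.1, 2 * b + p'.2) → p = p' := by
    rintro ⟨c, j⟩ hp ⟨c', j'⟩ hp' h
    have hj : j < t := by simpa using hp
    have hj' : j' < t := by simpa using hp'
    simp only at h
    have h1 : ((c, 2 * b + j) : Lab) ∉ move t (vac (s + a + b)) (c, 2 * b + j) := by
      rw [mem_mv]
      rintro (h2 | ⟨h2, -⟩)
      · have := congrArg Prod.snd h2
        unfold up at this
        simp only at this
        omega
      · exact h2 rfl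
    rw [h, mem_mv] at h1
    have h2 : ((c, 2 * b + j) : Lab) = (c', 2 * b + j') := by
      by_contra h3
      refine h1 (Or.inr ⟨h3, ?_⟩)
      rw [mem_vac']
      simp only
      omega
    have e1 := congrArg Prod.fst h2
    have e2 := congrArg Prod.snd h2
    simp only at e1 e2
    refine Prod.ext e1 ?_
    simp only
    omega
  have hG := hGEN s a b hs (by omega) (by omega)
    (((univ : Finset Bool) ×ˢ range t).image fun p => move t (vac (s + a + b)) (p.1, 2 * b + p.2)) (by
      intro R l hl hy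
      obtain ⟨c, j, hj, hR, -⟩ := hCLS s a b hs hsa hab hba R l hl hy
      rw [← ht] at hj hR
      exact mem_image.2 ⟨(c, j), by simpa using hj, hR.symm⟩)
  rw [sum_image hinj] at hG
  rw [hG, coeff_add, finset_sum_coeff]
  have h1 := hCOV s a b d t (by omega) (by omega) (by omega) hsa (by omega) k
  have h2 : ∀ p ∈ (univ : Finset Bool) ×ˢ range t, (-2 * ng s a b p.1 p.2).coeff k ≤
      ((∑ l ∈ addable b (move t (vac (s + a + b)) (p.1, 2 * b + p.2)),
        zz s a b (move t (vac (s + a + b)) (p.1, 2 * b + p.2)) l) ^ 2 -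
        ∑ l ∈ addable b (move t (vac (s + a + b)) (p.1, 2 * b + p.2)),
          zz s a b (move t (vac (s + a + b)) (p.1, 2 * b + p.2)) l ^ 2).coeff k := by
    rintro ⟨c, j⟩ hp
    have hj : j < t := by simpa using hp
    exact hQAD s a b hs hsa hab hba c j (by omega) _ (by rw [← ht]) k
  have h3 := sum_le_sum h2
  have h4 : ∑ p ∈ (univ : Finset Bool) ×ˢ range t, (-2 * ng s a b p.1 p.2).coeff k =
      -(2 * ∑ c : Bool, ∑ j ∈ range t, ng s a b c j).coeff k := by
    rw [← finset_sum_coeff, ← mul_sum, sum_product, ← coeff_neg]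
    congr 1
    rw [neg_mul]
  rw [h4] at h3
  linarith

end Pool.Agent.TC
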