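import Pool.Agent.helper74.TC.YV1

/-!
# Row YV2 of project TC: the entries of `yv` at the states `T2`
-/

set_option autoImplicit false

open Polynomial Finset Pool.Agent.helper27.PC

namespace Pool.Agent.TC

theorem YV2_cnt {S S' : St} {l : Lab} {r : ℕ}
    (h : ∀ y : Lab, y.1 = l.1 → l.2 < y.2 → y.2 < l.2 + r → (y ∈ S ↔ y ∈ S')) : cnt S l r = cnt S' l r := by
  unfold cnt
  congr 1
  ext y
  rw [mem_filter, mem_filter]
  constructor
  · rintro ⟨h1, h2, h3, h4⟩
    exact ⟨(h y h2 h3 h4).1 h1, h2, h3, h4⟩
  · rintro ⟨h1, h2, h3, h4⟩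
    exact ⟨(h y h2 h3 h4).2 h1, h2, h3, h4⟩

/-- the first ribbon, exact value -/
theorem YV2_first (hRIV : RIV_stmt) (s a b : ℕ) (hs : 1 ≤ s) (c : Bool) (i : ℕ) (hi : i < s) :
    Rib (wT true (s + a + b) 0 s) s (Finsupp.single (vac (s + a + b)) 1) (move s (vac (s + a + b)) (c, a + b + i)) =
      (-1) ^ cnt (move s (vac (s + a + b)) (c, a + b + i)) (c, a + b + i) s * (C (YV1_sg c) * X ^ (i + ix c)) := by
  rw [hRIV _ _ _ _ hs]
  have hup : up s ((c, a + b + i) : Lab) = (c, a + b + i + s) := rfl
  have hmem : ∀ x : Lab, x ∈ move s (vac (s + a + b)) (c, a + b + i) ↔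
      x = (c, a + b + i + s) ∨ (x ≠ (c, a + b + i) ∧ x.2 < s + a + b) := by
    intro x
    rw [mem_mv, hup, mem_vac']
  have hdn : dn s ((c, a + b + i + s) : Lab) = (c, a + b + i) := by
    unfold dn
    simp
  rw [sum_eq_single ((c, a + b + i + s) : Lab)]
  · rw [hdn, YV1_w0]
    have hE : insert ((c, a + b + i) : Lab) ((move s (vac (s + a + b)) (c, a + b + i)).erase (c, a + b + i + s)) =
        vac (s + a + b) := by
      ext x
      rw [mem_insert, mem_erase, hmem, mem_vac']
      constructor
      · rintro (rfl | ⟨h1, h2 | h2⟩)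
        · simp only
          omega
        · exact absurd h2 h1
        · exact h2.2
      · intro h
        by_cases h0 : x = (c, a + b + i)
        · exact Or.inl h0
        · refine Or.inr ⟨?_, Or.inr ⟨h0, h⟩⟩
          rintro rfl
          simp only at h
          omega
    rw [hE, Finsupp.single_eq_same, mul_one]
  · intro m hm hne
    rw [mem_filter, hmem] at hm
    have hz : insert (dn s m) ((move s (vac (s + a + b)) (c, a + b + i)).erase m) ≠ vac (s + a + b) := by
      intro h
      have h1 : ((c, a + b + i + s) : Lab) ∈ vac (s + a + b) := by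
        rw [← h, mem_insert, mem_erase, hmem]
        exact Or.inr ⟨fun h => hne h.symm, Or.inl rfl⟩
      rw [mem_vac'] at h1
      simp only at h1
      omega
    rw [Finsupp.single_eq_of_ne hz, mul_zero]
  · intro h
    exfalso
    apply h
    rw [mem_filter, hmem, hmem, hdn]
    refine ⟨Or.inl rfl, ?_, ?_⟩
    · simp only
      omega
    · rintro (h1 | ⟨h1, -⟩)
      · have := congrArg Prod.snd h1
        simp only at this
        omega
      · exact h1 rfl

theorem YV2_ix (c : Bool) : ix c + ix (!c) = 1 := by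
  cases c <;> rfl

theorem YV2_ne (c : Bool) (x y : ℕ) : ((!c, x) : Lab) ≠ (c, y) := by
  intro h
  have := congrArg Prod.fst h
  cases c <;> simp at this

/-- the term of the bead `(!c, x₂ + a)` -/
theorem YV2_t1 (hRIV : RIV_stmt) (s a b : ℕ) (hs : 1 ≤ s) (hsa : s ≤ a) (c : Bool) (i k : ℕ) (hi : i < s)
    (hk : k < a) (S : St) (hS : S = T2 s a b c (a + b + i) (s + b + k)) :
    (-1 : ℤ[X]) ^ cnt S (dn a (!c, s + b + k + a)) a * wT true (s + a + b) s a (dn a (!c, s + b + k + a)) *
      Rib (wT true (s + a + b) 0 s) s (Finsupp.single (vac (s + a + b)) 1)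
        (insert (dn a (!c, s + b + k + a)) (S.erase (!c, s + b + k + a))) =
    (-1) ^ cnt (move a (vac (s + a + b)) (!c, s + b + k)) (!c, s + b + k) a *
      (-1) ^ cnt (move s (vac (s + a + b)) (c, a + b + i)) (c, a + b + i) s *
      (C (YV1_sg c * YV1_sg (!c)) * X ^ (s + i + k + 1)) := by
  have hmem : ∀ x : Lab, x ∈ S ↔ x = (!c, s + b + k + a) ∨ (x ≠ (!c, s + b + k) ∧ (x = (c, a + b + i + s) ∨
      (x ≠ (c, a + b + i) ∧ x.2 < s + a + b))) := by
    intro x
    rw [hS, mem_T2]
  have hdn : dn a ((!c, s + b + k + a) : Lab) = (!c, s + b + k) := by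
    unfold dn
    simp
  have hdn' : ((!c, s + b + k) : Lab) = (!c, b + (s + k)) := by
    congr 1
    omega
  have hE : insert ((!c, s + b + k) : Lab) (S.erase (!c, s + b + k + a)) =
      move s (vac (s + a + b)) (c, a + b + i) := by
    have hup : up s ((c, a + b + i) : Lab) = (c, a + b + i + s) := rfl
    ext x
    rw [mem_insert, mem_erase, hmem, mem_mv, hup, mem_vac']
    constructor
    · rintro (h1 | ⟨h1, h2 | ⟨h2, h3⟩⟩)
      · right
        rw [h1]
        refine ⟨YV2_ne c _ _, ?_⟩
        simp only
        omega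
      · exact absurd h2 h1
      · exact h3
    · intro h1
      by_cases h2 : x = (!c, s + b + k)
      · exact Or.inl h2
      · refine Or.inr ⟨?_, Or.inr ⟨h2, h1⟩⟩
        rintro rfl
        rcases h1 with h1 | ⟨-, h1⟩
        · exact YV2_ne c _ _ h1
        · simp only at h1
          omega
  have hc : cnt S ((!c, s + b + k) : Lab) a = cnt (move a (vac (s + a + b)) (!c, s + b + k)) (!c, s + b + k) a := by
    refine YV2_cnt fun y h1 h2 h3 => ?_
    simp only at h1 h2 h3
    have hup : up a ((!c, s + b + k) : Lab) = (!c, s + b + k + a) := rfl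
    rw [hmem, mem_mv, hup, mem_vac']
    have n1 : ∀ z : ℕ, y ≠ (c, z) := by
      intro z h
      have := congrArg Prod.fst h
      rw [h1] at this
      cases c <;> simp at this
    constructor
    · rintro (h | ⟨h, h' | h'⟩)
      · exact Or.inl h
      · exact absurd h' (n1 _)
      · exact Or.inr ⟨h, h'.2⟩
    · rintro (h | ⟨h, h'⟩)
      · exact Or.inl h
      · exact Or.inr ⟨h, Or.inr ⟨n1 _, h'⟩⟩
  rw [hdn, hE, YV2_first hRIV s a b hs c i hi, hc]
  have hw : wT true (s + a + b) s a ((!c, s + b + k) : Lab) = C (YV1_sg (!c)) * X ^ (s + k + ix (!c)) := by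
    rw [hdn', YV1_w1]
  rw [hw]
  have he : s + i + k + 1 = (s + k + ix (!c)) + (i + ix c) := by
    have := YV2_ix c
    omega
  rw [he, pow_add X (s + k + ix (!c)) (i + ix c), C_mul]
  ring

theorem YV2 (hRIV : RIV_stmt) : YV2_stmt := by
  intro s a b hs hsa hsb c i k hi hk
  obtain ⟨S, hS⟩ : ∃ S, S = T2 s a b c (a + b + i) (s + b + k) := ⟨_, rfl⟩
  have hmem : ∀ x : Lab, x ∈ S ↔ x = (!c, s + b + k + a) ∨ (x ≠ (!c, s + b + k) ∧ (x = (c, a + b + i + s) ∨
      (x ≠ (c, a + b + i) ∧ x.2 < s + a + b))) := by
    intro x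
    rw [hS, mem_T2]
  have hdn : dn a ((!c, s + b + k + a) : Lab) = (!c, s + b + k) := by
    unfold dn
    simp
  have h1m : ((!c, s + b + k + a) : Lab) ∈ S.filter fun m => a ≤ m.2 ∧ dn a m ∉ S := by
    rw [mem_filter, hdn]
    refine ⟨?_, ?_, ?_⟩
    · rw [hmem]
      exact Or.inl rfl
    · simp only
      omega
    · rw [hmem]
      rintro (h | ⟨h, -⟩)
      · have := congrArg Prod.snd h
        simp only at this
        omega
      · exact h rfl
  have hsub : ∀ m ∈ S.filter (fun m => a ≤ m.2 ∧ dn a m ∉ S), m ≠ (!c, s + b + k + a) → m = (c, a + b + i + s) := by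
    intro m hm hne
    obtain ⟨h1, h2, h3⟩ := mem_filter.1 hm
    rw [hmem] at h1
    rcases h1 with h1 | ⟨h1, h4 | ⟨h4, h5⟩⟩
    · exact absurd h1 hne
    · exact h4
    · exfalso
      apply h3
      rw [hmem]
      right
      refine ⟨?_, Or.inr ⟨?_, ?_⟩⟩
      · intro h6
        have := congrArg Prod.snd h6
        unfold dn at this
        simp only at this
        omega
      · intro h6
        have := congrArg Prod.snd h6
        unfold dn at this
        simp only at this
        omega
      · unfold dn
        simp only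
        omega
  have ht1 := YV2_t1 hRIV s a b hs hsa c i k hi hk S hS
  rw [← hS, yv_eq, hRIV _ _ _ _ (le_trans hs hsa)]
  obtain ⟨σ, hσ⟩ : ∃ σ : ℤ, YV1_sg c * YV1_sg (!c) = σ := ⟨_, rfl⟩
  have hσ2 : σ = -1 := by
    rw [← hσ]
    cases c <;> rfl
  rw [hσ] at ht1
  obtain ⟨N, hN⟩ : ∃ N : ℕ, cnt (move a (vac (s + a + b)) (!c, s + b + k)) (!c, s + b + k) a +
      cnt (move s (vac (s + a + b)) (c, a + b + i)) (c, a + b + i) s = N := ⟨_, rfl⟩
  rw [← pow_add, hN] at ht1
  by_cases hE : s = a
  · -- two terms
    have hdn2 : dn a ((c, a + b + i + s) : Lab) = (c, a + b + i) := by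
      unfold dn
      simp only
      congr 1
      omega
    have h2m : ((c, a + b + i + s) : Lab) ∈ S.filter fun m => a ≤ m.2 ∧ dn a m ∉ S := by
      rw [mem_filter, hdn2]
      refine ⟨?_, ?_, ?_⟩
      · rw [hmem]
        exact Or.inr ⟨(YV2_ne c _ _).symm, Or.inl rfl⟩
      · simp only
        omega
      · rw [hmem]
        rintro (h | ⟨-, h | ⟨h, -⟩⟩)
        · exact YV2_ne c _ _ h.symm
        · have := congrArg Prod.snd h
          simp only at this
          omega
        · exact h rfl
    have hne : ((!c, s + b + k + a) : Lab) ≠ (c, a + b + i + s) := YV2_ne c _ _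
    have hF : S.filter (fun m => a ≤ m.2 ∧ dn a m ∉ S) = {((!c, s + b + k + a) : Lab), (c, a + b + i + s)} := by
      ext m
      rw [mem_insert, mem_singleton]
      constructor
      · intro hm
        by_cases h : m = (!c, s + b + k + a)
        · exact Or.inl h
        · exact Or.inr (hsub m hm h)
      · rintro (rfl | rfl)
        · exact h1m
        · exact h2m
    rw [hF, sum_pair hne, ht1, hdn2]
    have hcc : (!(!c)) = c := by cases c <;> rfl
    have hEe : insert ((c, a + b + i) : Lab) (S.erase (c, a + b + i + s)) =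
        move s (vac (s + a + b)) (!c, a + b + k) := by
      have hup : up s ((!c, a + b + k) : Lab) = (!c, s + b + k + a) := by
        unfold up
        simp only
        congr 1
        omega
      have h7 : ((!c, a + b + k) : Lab) = (!c, s + b + k) := by
        congr 1
        omega
      ext x
      rw [mem_insert, mem_erase, hmem, mem_mv, hup, mem_vac', h7]
      constructor
      · rintro (h1 | ⟨h1, h2 | ⟨h2, h3 | h3⟩⟩)
        · right
          rw [h1]
          refine ⟨(YV2_ne c _ _).symm, ?_⟩
          simp only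
          omega
        · exact Or.inl h2
        · exact absurd h3 h1
        · exact Or.inr ⟨h2, h3.2⟩
      · rintro (h1 | ⟨h1, h2⟩)
        · refine Or.inr ⟨?_, Or.inl h1⟩
          rw [h1]
          exact YV2_ne c _ _
        · by_cases h3 : x = (c, a + b + i)
          · exact Or.inl h3
          · refine Or.inr ⟨?_, Or.inr ⟨h1, Or.inr ⟨h3, h2⟩⟩⟩
            rintro rfl
            simp only at h2
            omega
    have hw : wT true (s + a + b) s a ((c, a + b + i) : Lab) = C (YV1_sg c) * X ^ (a + i + ix c) := by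
      have h7 : ((c, a + b + i) : Lab) = (c, b + (a + i)) := by
        congr 1
        omega
      rw [h7, YV1_w1]
    have hc : cnt S ((c, a + b + i) : Lab) a = cnt (move s (vac (s + a + b)) (c, a + b + i)) (c, a + b + i) s := by
      rw [← hE]
      refine YV2_cnt fun y h1 h2 h3 => ?_
      simp only at h1 h2 h3
      have hup : up s ((c, s + b + i) : Lab) = (c, s + b + i + s) := rfl
      rw [hmem, mem_mv, hup, mem_vac']
      have n1 : ∀ z : ℕ, y ≠ (!c, z) := by
        intro z h
        have := congrArg Prod.fst h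
        rw [h1] at this
        cases c <;> simp at this
      subst hE
      constructor
      · rintro (h | ⟨h, h' | h'⟩)
        · exact absurd h (n1 _)
        · exact Or.inl h'
        · exact Or.inr h'
      · rintro (h | h)
        · exact Or.inr ⟨n1 _, Or.inl h⟩
        · exact Or.inr ⟨n1 _, Or.inr h⟩
    have hcd : cnt (move s (vac (s + a + b)) (!c, a + b + k)) (!c, a + b + k) s =
        cnt (move a (vac (s + a + b)) (!c, s + b + k)) (!c, s + b + k) a := by
      rw [hE]
    rw [hEe, hw, hc, YV2_first hRIV s a b hs (!c) k (by omega), hcd, if_pos hE]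
    have hfin : (-1 : ℤ[X]) ^ cnt (move s (vac (s + a + b)) (c, a + b + i)) (c, a + b + i) s *
        (C (YV1_sg c) * X ^ (a + i + ix c)) *
        ((-1) ^ cnt (move a (vac (s + a + b)) (!c, s + b + k)) (!c, s + b + k) a *
          (C (YV1_sg (!c)) * X ^ (k + ix (!c)))) = (-1) ^ N * (C σ * X ^ (s + i + k + 1)) := by
      have he : s + i + k + 1 = (a + i + ix c) + (k + ix (!c)) := by
        have := YV2_ix c
        omega
      rw [he, pow_add X (a + i + ix c) (k + ix (!c)), ← hσ, C_mul, ← hN, pow_add]
      ring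
    rw [hfin, hσ2]
    rcases YV1_pow N with h | h
    · refine ⟨-2, by norm_num, ?_⟩
      rw [h, C_1, one_mul, ← add_mul, ← C_add]
      norm_num
    · refine ⟨2, by norm_num, ?_⟩
      rw [h, ← mul_assoc, ← C_mul, ← add_mul, ← C_add]
      norm_num
  · have hF : S.filter (fun m => a ≤ m.2 ∧ dn a m ∉ S) = {((!c, s + b + k + a) : Lab)} := by
      ext m
      rw [mem_singleton]
      constructor
      · intro hm
        by_contra h
        have h1 := hsub m hm h
        obtain ⟨-, h2, h3⟩ := mem_filter.1 hm
        apply h3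
        rw [h1, hmem]
        right
        refine ⟨?_, Or.inr ⟨?_, ?_⟩⟩
        · intro h6
          exact YV2_ne c _ _ h6.symm
        · intro h6
          have := congrArg Prod.snd h6
          unfold dn at this
          simp only at this
          omega
        · unfold dn
          simp only
          omega
      · rintro rfl
        exact h1m
    rw [hF, sum_singleton, ht1, if_neg hE, hσ2]
    rcases YV1_pow N with h | h
    · refine ⟨-1, by norm_num, ?_⟩
      rw [h, C_1, one_mul]
    · refine ⟨1, by norm_num, ?_⟩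
      rw [h, ← mul_assoc, ← C_mul]
      norm_num

end Pool.Agent.TC
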