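import Pool.Agent.helper27.PC3.Fin8
import Pool.Agent.helper45.TC.RIV
import Pool.Agent.helper45.TC.MON
import Pool.Agent.helper45.TC.CVG
import Pool.Agent.helper45.TC.SUP
import Pool.Agent.helper52.TC.GEN
import Pool.Agent.helper74.TC.YV1
import Pool.Agent.helper45.TC.YV2
import Pool.Agent.helper63.TC.CLS
import Pool.Agent.helper24.TC.LOW
import Pool.Agent.helper71.TC.QAD
import Pool.Agent.helper20.TC.COV
import Pool.Agent.helper45.TC.TC1
import Pool.Agent.helper69.TC.CL0
import Pool.Agent.helper20.TC.LO0
import Pool.Agent.helper96.TC.MS0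
import Pool.Agent.helper49.TC.CO0
import Pool.Agent.helper54.TC.TC0
import Pool.Agent.helper57.TC.CLA

/-! # Project TC: the rows put together -/

set_option autoImplicit false

open Polynomial Finset Pool.Agent.helper27.PC

namespace Pool.Agent.TC

theorem a_YV1 : YV1_stmt := YV1 RIV

theorem a_YV2 : YV2_stmt := YV2 RIV

theorem a_GEN : GEN_stmt := GEN LA LB LG LOV

theorem a_CLS : CLS_stmt := CLS SUP

theorem a_QAD : QAD_stmt := QAD LOV a_CLS (LOW LB LG LOV RIV) MON

theorem a_TC1 : TC1_stmt := TC1 a_GEN a_CLS a_QAD (COV CVG a_YV1 a_YV2)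

theorem a_CL0 : CL0_stmt := CL0 SUP

theorem a_TC0 : TC0_stmt := TC0 a_GEN a_CL0 LOV (LO0 LB LG) (MS0 a_CL0 a_YV1) (CO0 CVG a_YV1 a_YV2)

theorem a_CLA : CLA_stmt := CLA a_TC1 a_TC0

/-- not covered by `Crit`: the negativity theorem applies -/
theorem a_neg {n : ℕ} {l : List ℕ} (hl : Part n l) (h3 : l.length ≤ 3) (h : ¬ Crit l) : l.length = 3 ∧ NegType true l := by
  obtain ⟨hpos, hpw, -⟩ := hl
  unfold Crit at h
  push Not at h
  obtain ⟨h2, h⟩ := h
  have h3' : l.length = 3 := by omega
  refine ⟨h3', ?_⟩
  match l, h3', h, hpos, hpw with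
  | [s, a, b], _, h, hpos, hpw =>
    have h1 : 1 ≤ s := hpos s (by simp)
    have h4 : s ≤ a ∧ a ≤ b := by
      simp only [List.pairwise_cons] at hpw
      exact ⟨hpw.1 a (by simp), hpw.2.1 b (by simp)⟩
    obtain ⟨h5, h6⟩ := h s a b rfl
    rw [Nat.not_even_iff_odd] at h6
    obtain ⟨k, hk⟩ := h6
    by_cases hp : Even (s + a)
    · left
      obtain ⟨m, hm⟩ := hp
      refine ⟨[], [s, a], [], b, rfl, ?_, ?_, ?_, ?_, ?_⟩
      · intro x hx
        simp only [List.mem_cons, List.not_mem_nil, or_false] at hx
        rcases hx with rfl | rfl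
        · refine ⟨by simpa using (by omega : 0 < x), ⟨m + k, by omega⟩⟩
        · refine ⟨by simpa using (by omega : 0 < x), ⟨x + k, by omega⟩⟩
      · show b ≤ [s, a].sum
        simp only [List.sum_cons, List.sum_nil]
        omega
      · rintro ⟨-, -, h7, h8⟩
        simp only [List.sum_cons, List.sum_nil] at h8
        have h9 : s = 1 ∧ a = 1 := by
          by_contra h9
          have h10 : [s, a].count 1 ≤ 1 := by
            simp only [List.count_cons, List.count_nil, beq_iff_eq]
            by_cases e1 : s = 1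
            · have e2 : a ≠ 1 := fun e2 => h9 ⟨e1, e2⟩
              rw [if_pos e1, if_neg e2]
            · rw [if_neg e1]
              split_ifs <;> omega
          omega
        omega
      · rintro ⟨h7, -⟩
        exact absurd h7 (by decide)
      · rintro ⟨h7, -⟩
        exact absurd h7 (by decide)
    · right
      rw [Nat.not_even_iff_odd] at hp
      obtain ⟨m, hm⟩ := hp
      refine ⟨[], [s], [a], [], b, rfl, ⟨0, rfl⟩, ?_, ?_, ?_, ?_, ?_, ?_, ?_⟩
      · intro x hx
        have hx' : x = a := by simpa using hx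
        subst hx'
        refine ⟨?_, ⟨x + k, by omega⟩⟩
        simp only [List.nil_append, List.sum_cons, List.sum_nil]
        omega
      · intro x hx
        have hx' : x = s := by simpa using hx
        subst hx'
        refine ⟨by simpa using (by omega : 0 < x), fun y hy => ?_⟩
        have hy' : y = x := by simpa using hy
        subst hy'
        exact ⟨y, rfl⟩
      · simp only [List.sum_cons, List.sum_nil]
        omega
      · show b ≤ [s].sum + [a].sum
        simp only [List.sum_cons, List.sum_nil]
        omega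
      · rintro ⟨-, -, h7, -⟩
        have h8 := List.count_le_length (a := 1) (l := [s])
        simp only [List.length_cons, List.length_nil] at h8
        omega
      · rintro ⟨h7, -⟩
        exact absurd h7 (by decide)
      · rintro ⟨h7, -⟩
        exact absurd h7 (by decide)

theorem a_sd {n : ℕ} {l : List ℕ} (hl : Part n l) (h2 : l.length ≤ 2) : SuperDecreasing l := by
  obtain ⟨hpos, hpw, -⟩ := hl
  match l, h2, hpos, hpw with
  | [], _, _, _ =>
    intro x hx
    simp at hx
  | [a], _, hpos, _ =>
    have h1 : 1 ≤ a := hpos a (by simp)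
    intro x hx
    have hx' : x = a := by simpa using hx
    subst hx'
    simp only [List.filter_cons, List.filter_nil, lt_irrefl, decide_false, Bool.false_eq_true, if_false, List.sum_nil]
    omega
  | [a, b], _, hpos, hpw =>
    have h1 : 1 ≤ a := hpos a (by simp)
    have h2 : a ≤ b := by
      simp only [List.pairwise_cons] at hpw
      exact hpw.1 b (by simp)
    exact CLA_sd2 h1 h2
  | _ :: _ :: _ :: _, h2, _, _ =>
    simp only [List.length_cons] at h2
    omega

open Module in
/-- the classification of the positive classes with at most three negative cycles -/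
theorem main (t : Bool) (n : ℕ) (hn : if t then 1 ≤ n else 2 ≤ n) (H : Type) [Ring H] [Algebra A H]
    (T : Basis (Wty t n) A H) (hT : GHecke (genTy t n) T) (l : List ℕ) (hl : Part n l) (h3 : l.length ≤ 3)
    (w₀ w : Wty t n) (hw : NegBlocks (w : W n) 0 l) (hw₀ : IsConj w₀ w) :
    (Crit l → PosClass T w₀) ∧ (¬ Crit l → NotPosClass T w₀) := by
  obtain ⟨hev, w', hw', hmin, c, hc, hcP⟩ :=
    val0 LEN2B SIGu NFB2u NFD2u DZ NUu t n hn H T hT l hl w₀ w hw hw₀
  cases t
  · have hev' : Even l.length := hev.resolve_left (by simp)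
    have h2 : l.length ≤ 2 := by
      obtain ⟨k, hk⟩ := hev'
      omega
    exact ⟨fun _ => S2 false n hn H T hT l hl (a_sd hl h2) w₀ w hw hw₀, fun h => absurd (Or.inl h2) h⟩
  · refine ⟨fun h => ?_, fun h => S3N true n hn H T hT l hl (a_neg hl h3 h).2 w₀ w hw hw₀⟩
    rcases a_CLA n l hl h3 h with h4 | h4
    · exact S2 true n hn H T hT l hl h4 w₀ w hw hw₀
    · exact ⟨w', hw', hmin, natPoly_of_nonneg hc h4 hcP⟩

end Pool.Agent.TC
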