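import Pool.Agent.helper27.PC2.Stmt2
import Pool.Agent.helper93.PC.SD

/-!
# Project TC (MP_405bd9_al): the positive classes of `W(B_n)` with at most three negative cycles. The rows

THEOREM. Let `C` be the class of `W(B_n)` of negative cycle type `l`, a partition of `n` with at most three parts. `C` is positive iff
`l` has at most two parts, or `l = (s, a, b)`, `s ≤ a ≤ b`, with `a + s < b` or `b - a` even. (`W(D_n)`: at most two parts, always positive.)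
Known (our PositiveClasses): positive if each part exceeds the sum of the smaller ones (so for `≤ 2` parts, for `b = a` and for `b > a + s`);
not positive if `a < b ≤ a + s` and `b - a` is odd (`NegType`). NEW: positive for `a < b ≤ a + s`, `b - a` even.

PROOF. `N_C(q) = P = ∑_S (Rib w b y)(S)²`, `y = yv s a b` the vector of `(s, a)`, `w = wl` (`n = s + a + b` beads in each component; a state is a set
of beads `(component, place)`). `y` has monomial entries (`SD_vec`). By the commutation rule (row GEN)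
`P = DD + ∑_R ((∑_l z_(R,l))² - ∑_l z_(R,l)²)`, `DD = ∑_S y_S² ∑_(l addable) w(l)²`, `z_(R,l) = ± w(l) y(move b R l)`, `∑_l z_(R,l) = (Low w b y)(R)`.
For `t = a + s - b ≥ 1` only `R` = (vacuum with one bead `(c, 2b + j)`, `j < t`, moved by `t`) occur, each with at most four `l` (row CLS), and
`∑_l z = ±(X^A - X^B - X^C + X^E)` (row LOW), so the `z` are these monomials (row MON) and the bracket is
`≥ -2 (X^(A+B) + X^(A+C) + X^(B+E) + X^(C+E))` (row QAD). If `b - a = 2d` is even, `DD` contains these negative terms: for each `(c, j)` there are eight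
explicit pairs `(S, l)`, all different, with the right exponents (row COV). For `t = 0` only `R` = vacuum occurs (rows CL0, LO0, MS0, CO0).

RULES. Row `XXX`: file `Pool/Agent/<seat>/TC/XXX.lean`, `import Pool.Agent.helper45.TC.Spec`, `set_option autoImplicit false`,
`open Polynomial Finset Pool.Agent.helper27.PC`, `namespace Pool.Agent.TC`, theorem line as in the lock note (other rows only as hypotheses; the proved rows
`LA_stmt`, `LB_stmt`, `LG_stmt` of `helper27/PC2/Stmt2` may be hypotheses too), auxiliary lemmas prefixed `XXX_`. No straight double quotes,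
no convert / congr!. Land, note DONE + path, one line to helper45. A doubtful statement: tell me at once.

CONVENTIONS. `vac n`: beads `(c, x)`, `x < n`; `up k (c, x) = (c, x + k)`, `dn k (c, x) = (c, x - k)`, `move k S l = insert (up k l) (S.erase l)`,
`addable k S = {l ∈ S | up k l ∉ S}`, `cnt S l k` = number of beads of `S` strictly between `l` and `up k l`. `ix c = 1` for `true`, `0` for `false`.
Exponents always depend on `x + ix c`. In `yv s a b`: `y = Rib w₁ a (Rib w₀ s vac)`, `w₀ (c,x) = ± X^(x + ix c - a - b)`, `w₁ (c,x) = ± X^(x + ix c - b)`,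
`wl (c,x) = ± X^(x + ix c)`, sign `+` for `c = true`, `-` for `false` (all the exponents which occur are `≥ 0`).
-/

set_option autoImplicit false

namespace Pool.Agent.TC

open Polynomial Finset Pool.Agent.helper27.PC

/-! ## Definitions and free lemmas -/

/-- `1` for the component `true`, `0` for `false` -/
def ix (c : Bool) : ℕ := if c then 1 else 0

/-- the weight of the last ribbon -/
noncomputable def wl (l : Lab) : ℤ[X] := if l.1 then X ^ (l.2 + 1) else - X ^ l.2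

/-- the vector of the type `(s, a)`, with `s + a + b` beads in each component -/
noncomputable def yv (s a b : ℕ) : St →₀ ℤ[X] := vecT true (s + a + b) [s, a]

/-- the terms of `Low wl b (yv s a b) R` -/
noncomputable def zz (s a b : ℕ) (R : St) (l : Lab) : ℤ[X] := (-1) ^ cnt R l b * wl l * yv s a b (move b R l)

/-- the diagonal part -/
noncomputable def DD (s a b : ℕ) : ℤ[X] := ∑ S ∈ (yv s a b).support, yv s a b S ^ 2 * ∑ l ∈ addable b S, wl l ^ 2

/-- one bead moved by `a + s` -/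
def D3 (s a b : ℕ) (c : Bool) (g : ℕ) : St := move (a + s) (vac (s + a + b)) (c, g)

/-- the bead `(c, x₁)` moved by `s`, the bead `(!c, x₂)` of the other component moved by `a` -/
def T2 (s a b : ℕ) (c : Bool) (x₁ x₂ : ℕ) : St := move a (move s (vac (s + a + b)) (c, x₁)) (!c, x₂)

/-- the place in the component `!c` with the same value of `x + ix` as `(c, x)` -/
def sh (c : Bool) (x : ℕ) : ℕ := if c then x + 1 else x - 1

/-- the absolute value of half of the negative part of the bracket -/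
noncomputable def ng (s a b : ℕ) (c : Bool) (j : ℕ) : ℤ[X] :=
  X ^ (5 * b + 4 * s - a + 6 * (j + ix c)) + X ^ (5 * b + 2 * s + a + 6 * (j + ix c)) +
    X ^ (3 * b + 2 * s - a + 6 * (j + ix c)) + X ^ (3 * b + a + 6 * (j + ix c))

theorem mem_vac' {n : ℕ} {x : Lab} : x ∈ vac n ↔ x.2 < n := by
  unfold vac
  rw [mem_product]
  simp

theorem mem_mv {k : ℕ} {S : St} {l x : Lab} : x ∈ move k S l ↔ x = up k l ∨ (x ≠ l ∧ x ∈ S) := by
  unfold move
  rw [mem_insert, mem_erase]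

theorem mem_ad {k : ℕ} {S : St} {l : Lab} : l ∈ addable k S ↔ l ∈ S ∧ up k l ∉ S := by
  unfold addable
  rw [mem_filter]

theorem mem_D3 {s a b : ℕ} {c : Bool} {g : ℕ} {x : Lab} :
    x ∈ D3 s a b c g ↔ x = (c, g + (a + s)) ∨ (x ≠ (c, g) ∧ x.2 < s + a + b) := by
  unfold D3
  rw [mem_mv, mem_vac']
  rfl

theorem mem_T2 {s a b : ℕ} {c : Bool} {x₁ x₂ : ℕ} {x : Lab} :
    x ∈ T2 s a b c x₁ x₂ ↔ x = (!c, x₂ + a) ∨ (x ≠ (!c, x₂) ∧ (x = (c, x₁ + s) ∨ (x ≠ (c, x₁) ∧ x.2 < s + a + b))) := by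
  unfold T2
  rw [mem_mv, mem_mv, mem_vac']
  rfl

theorem wl_sq (l : Lab) : wl l ^ 2 = X ^ (2 * (l.2 + ix l.1)) := by
  unfold wl ix
  cases h : l.1
  · simp only [Bool.false_eq_true, if_false, neg_sq, add_zero]
    rw [← pow_mul, mul_comm]
  · simp only [if_true]
    rw [← pow_mul, mul_comm]

theorem yv_eq (s a b : ℕ) : yv s a b =
    Rib (wT true (s + a + b) s a) a (Rib (wT true (s + a + b) 0 s) s (Finsupp.single (vac (s + a + b)) 1)) := by
  unfold yv vecT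
  simp only [fockT, zero_add]

theorem wlast (s a b : ℕ) : wT true (s + a + b) (s + a) b = wl := by
  funext l
  unfold wT wq wl
  have e1 : s + a + b + l.2 + 1 - (s + a + b) = l.2 + 1 := by omega
  have e2 : s + a + b + l.2 - (s + a + b) = l.2 := by omega
  rw [if_pos rfl, e1, e2]

/-! ## A. General rows -/

/-- **RIV** (short). The entries of `Rib`. Proof: LA with `u' = single S 1`: `dot (Rib w a u) (single S 1) = (Rib w a u) S`, and
`dot u (Low w a (single S 1)) = ∑_m ..` (definition of `Low`, `Finsupp.linearCombination_single`, `dot` is linear in the second argument: `u.sum fun T c => c * (single T₀ z) T = u T₀ * z`).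
Or directly. Uses: LA. -/
def RIV_stmt : Prop := ∀ (w : Lab → ℤ[X]) (a : ℕ) (u : St →₀ ℤ[X]) (S : St), 1 ≤ a →
  Rib w a u S = ∑ m ∈ S.filter (fun m => a ≤ m.2 ∧ dn a m ∉ S),
    (-1) ^ cnt S (dn a m) a * w (dn a m) * u (insert (dn a m) (S.erase m))

/-- **LOV** (short). The entries of `Low`. Proof: LA with `Rib w b (single R 1) = ∑_(l ∈ addable b R) single (move b R l) ((-1)^cnt R l b * w l)`
(`SD_Rib_single`) and `u' = u`: `dot (single R 1) (Low w b u) = (Low w b u) R`. Uses: LA. -/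
def LOV_stmt : Prop := ∀ (w : Lab → ℤ[X]) (b : ℕ) (u : St →₀ ℤ[X]) (R : St), 1 ≤ b →
  Low w b u R = ∑ l ∈ addable b R, (-1) ^ cnt R l b * w l * u (move b R l)

/-- **GEN** (medium). The formula for `N_C`. Write `n = s+a+b`, `y = yv s a b`, `GV n (s+a) y` (LG twice, `SD_good_vac`). `PU true n [s,a,b] 0 = nrm (Rib wl b y)` (`wlast`, `yv_eq`, `fockT`).
`nrm (Rib wl b y) = dot (Rib wl b y) (Rib wl b y) = dot y (Low wl b (Rib wl b y))` (LA) `= dot y (Rib wl b (Low wl b y)) + dot y (Dg f y)` (LB, second part,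
`f l = wl l * wl l - if b ≤ l.2 then wl (dn b l) * wl (dn b l) else 0`) `= nrm (Low wl b y) + ∑_(S ∈ supp y) y_S² ∑_(l ∈ S) f l` (LA and symmetry of `dot` for the first term, `Dg f y` has the entries `(∑_(l ∈ S) f l) * y S`).
`∑_(l ∈ S) f l = ∑_(l ∈ addable b S) wl l² - ∑_(m ∈ S, b ≤ m.2, dn b m ∉ S) wl (dn b m)²`: the terms `l ∈ S`, `up b l ∈ S` cancel the terms `m ∈ S`, `b ≤ m.2`, `dn b m ∈ S` (`m = up b l`).
So the first part is `DD`, and `∑_(S ∈ supp y) y_S² ∑_m wl (dn b m)² = ∑_(R ∈ 𝓡) ∑_(l ∈ addable b R) y(move b R l)² wl l²`: bijection between the pairs `(S, m)` with `y_S ≠ 0` and the pairs `(R, l)` with `y(move b R l) ≠ 0`: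
`R = insert (dn b m) (S.erase m)`, `l = dn b m`; `S = move b R l`, `m = up b l`. These are the `∑_l zz²` (`(-1)^2 = 1`). `nrm (Low wl b y) = ∑_(R ∈ 𝓡) (Low wl b y R)²` as `Low wl b y R = 0` for `R ∉ 𝓡` (LOV), and `Low wl b y R = ∑_l zz R l` (LOV).
Uses: LA, LB, LG, LOV. -/
def GEN_stmt : Prop := ∀ (s a b : ℕ), 1 ≤ s → 1 ≤ a → 1 ≤ b → ∀ 𝓡 : Finset St,
  (∀ R, ∀ l ∈ addable b R, yv s a b (move b R l) ≠ 0 → R ∈ 𝓡) →
  PU true (s + a + b) [s, a, b] 0 = DD s a b +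
    ∑ R ∈ 𝓡, ((∑ l ∈ addable b R, zz s a b R l) ^ 2 - ∑ l ∈ addable b R, zz s a b R l ^ 2)

/-- **MON** (short-medium). A sum of few monomials. Proof. For `e ∈ T` the coefficient of `X^e` on the right is `d e ≠ 0`, so some `i ∈ I` has `f i = C c * X^e`, `c ≠ 0`. Choose such an `i = g e`; `g : T → I` is injective (a nonzero monomial has
only one exponent), `I.card ≤ T.card`, so `g` is onto `I`. So `∑_(i ∈ I) f i = ∑_(e ∈ T) f (g e)`, and with `f (g e) = C (c e) * X^e` comparing coefficients gives `c e = d e`. -/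
def MON_stmt : Prop := ∀ (ι : Type) (I : Finset ι) (f : ι → ℤ[X]) (T : Finset ℕ) (d : ℕ → ℤ),
  (∀ i ∈ I, ∃ (c : ℤ) (e : ℕ), f i = C c * X ^ e) → I.card ≤ T.card → (∀ e ∈ T, d e ≠ 0) →
  ∑ i ∈ I, f i = ∑ e ∈ T, C (d e) * X ^ e → ∑ i ∈ I, f i ^ 2 = ∑ e ∈ T, C (d e ^ 2) * X ^ (2 * e)

/-- **CVG** (short). Lower bounds for `DD`. Proof. The entries of `yv` are monomials (`SD_vec` for `[s, a]`; `vecT true = vec`, cf. `fockT_true` in `helper27/PC2/Fin5.lean`, copy it), so all products `y_S² wl l²` have nonnegative coefficients.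
`DD = ∑_((S,l)) y_S² wl l²` over the set `Ω = supp y` and `l ∈ addable b S` (`Finset.sum_sigma'`); the indices `i ∈ K` with `y_(f i).1 ≠ 0` are mapped injectively into `Ω`, for the others `m i ≤ 0`. -/
def CVG_stmt : Prop := ∀ (s a b : ℕ), 1 ≤ s → s ≤ a → ∀ (ι : Type) (K : Finset ι) (f : ι → St × Lab) (e : ι → ℕ) (m : ι → ℤ),
  Set.InjOn f K → (∀ i ∈ K, (f i).2 ∈ addable b (f i).1 ∧ ∃ ε : ℤ, m i ≤ ε ^ 2 ∧
    yv s a b (f i).1 ^ 2 * wl (f i).2 ^ 2 = C (ε ^ 2) * X ^ e i) →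
  ∀ k, (∑ i ∈ K, C (m i) * X ^ e i).coeff k ≤ (DD s a b).coeff k

/-! ## B. The vector of `(s, a)` -/

/-- **SUP** (short-medium). The support of `yv`. Proof. `n = s+a+b`. `Rib w₀ s (single vac 1) = ∑_(x ∈ addable s vac)`, `x = (c, a+b+i)`, `i < s`. Then `S = move a (move s vac (c, a+b+i)) l`, `l ∈ addable a (..)` (definition of `Rib`, or RIV). Cases for `l`:
`l = (c, a+b+i+s)` (the moved bead): `S = D3 c (a+b+i)`. Otherwise `l = (c', x)`, `x < n`, `l ≠ (c, a+b+i)`, `up a l ∉ move s vac (c, a+b+i)`: either `up a l = (c, a+b+i)`: then `S = D3 c (b+i)` (`c' = c`, `x = b+i`), or `x + a ≥ n`, `x = s+b+k`, `k < a`, and `up a l ≠ (c, a+b+i+s)`: third case. -/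
def SUP_stmt : Prop := ∀ (s a b : ℕ), 1 ≤ s → s ≤ a → ∀ S : St, yv s a b S ≠ 0 →
  (∃ (c : Bool) (i : ℕ), i < s ∧ (S = D3 s a b c (a + b + i) ∨ S = D3 s a b c (b + i))) ∨
  ∃ (c c' : Bool) (i k : ℕ), i < s ∧ k < a ∧ ((c, a + b + i) : Lab) ≠ (c', s + b + k) ∧ ((c, a + b + i + s) : Lab) ≠ (c', s + b + k + a) ∧
    S = move a (move s (vac (s + a + b)) (c, a + b + i)) (c', s + b + k)

/-- **YV1** (medium). Values at `D3`. Proof (RIV for `Rib w₁ a`, then for `Rib w₀ s`). `S = D3 c g`: the only place `< n` without bead is `(c, g)`, the only bead at a place `≥ n` is `(c, g+a+s)`.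
`g = a+b+i`: `m ∈ S` with `a ≤ m.2`, `dn a m ∉ S`: `dn a m = (c, g)` would need the bead `(c, g+a)`, `g + a ≥ n`, `≠ g+a+s`: no; the beads `m.2 < n` have `dn a m = (c, g)` or a bead, so `m = (c, g+a+s)`, `dn a m = (c, g+s)`, `g + s ≥ n`. So `y S = ± X^(g+s+ix c-b) * (Rib w₀ s vac)(move s vac (c, g))`.
`g = b+i`: `m = (c, g+a)` (`g + a < n`, `dn a m = (c,g)`); the bead `(c, g+a+s)` has `dn a = (c, g+s)`, `g + s = b+i+s < n`, a bead. So `y S = ± X^(g+ix c-b) * (Rib w₀ s vac)(move s vac (c, g+a))` (`insert (c,g) (S.erase (c,g+a)) = move s vac (c, g+a)`).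
`(Rib w₀ s vac)(move s vac (c, x)) = ± X^(x+ix c-a-b)` for `a+b ≤ x < n` (RIV, or the definition: `move s vac` is injective on `addable s vac`). Uses: RIV. -/
def YV1_stmt : Prop := ∀ (s a b : ℕ), 1 ≤ s → s ≤ a → s ≤ b → ∀ (c : Bool) (i : ℕ), i < s →
  (∃ ε : ℤ, (ε = 1 ∨ ε = -1) ∧ yv s a b (D3 s a b c (a + b + i)) = C ε * X ^ (a + s + 2 * (i + ix c))) ∧
  ∃ ε : ℤ, (ε = 1 ∨ ε = -1) ∧ yv s a b (D3 s a b c (b + i)) = C ε * X ^ (2 * (i + ix c))

/-- **YV2** (medium). Values at `T2`. Proof. `S = T2 c x₁ x₂`, `x₁ = a+b+i`, `x₂ = s+b+k`: the places `< n` without beads are `(c, x₁)`, `(!c, x₂)`, the beads at places `≥ n` are `(c, x₁+s)`, `(!c, x₂+a)`. RIV: `m` with `dn a m ∉ S`, `m ∈ S`: `m = (!c, x₂+a)` (`dn a m = (!c, x₂)`):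
the term `(-1)^cnt w₁(!c, x₂) (Rib w₀ s vac)(move s vac (c, x₁))`; `m = (c, x₁+s)`: `dn a m = (c, x₁+s-a) ∉ S` iff it is `(c, x₁)` iff `a = s` (`x₁ + s - a < n` as `s ≤ a`): only for `a = s`, then the term is `(-1)^cnt w₁(c, x₁) (Rib w₀ s vac)(move s vac (!c, x₂))`; beads `m.2 < n`: `dn a m = (c, x₁)` needs
`x₁ + a < n`, impossible (`a ≥ s`), `(!c, x₂)`: `x₂ + a ≥ n`. Exponents: `x₁ + x₂ + 1 - a - 2b = s + i + k + 1` in both cases. For `a = s` the two terms are equal (the counts: `cnt` of `(!c, x₂)` in `S` is the number of beads between `x₂` and `x₂+a` in the component `!c`, the same as in `vac`: `n - 1 - x₂`, and the same for `(c, x₁)`;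
the signs are `(-1)^(n-1-x₁) (-1)^(n-1-x₂)` times the signs of the components in both cases), so `ε = ± 2`. Uses: RIV. -/
def YV2_stmt : Prop := ∀ (s a b : ℕ), 1 ≤ s → s ≤ a → s ≤ b → ∀ (c : Bool) (i k : ℕ), i < s → k < a →
  ∃ ε : ℤ, ε ^ 2 = (if s = a then 4 else 1) ∧ yv s a b (T2 s a b c (a + b + i) (s + b + k)) = C ε * X ^ (s + i + k + 1)

/-! ## C. The case `b < a + s` -/

/-- **CLS** (medium). Which `R` occur. Write `n = s+a+b`, `S = move b R l`, `l ∈ addable b R`, `m = up b l ∈ S`, `l = dn b m ∉ S`, `R = insert l (S.erase m)`. Cases of SUP.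
`S = D3 c g` (`g = a+b+i` or `b+i`): `l ∉ S`: `l = (c, g)` or `l.2 ≥ n`. `l = (c, g)`: `m = (c, g+b)` is a bead, so `g + b < n` (`g + b ≠ g + a + s`): `g = b + i`, `i < t = a+s-b`, `R = vac` minus `(c, 2b+i)` plus `(c, b+i+a+s) = (c, 2b+i+t)`: `j = i`, `l = (c, b+j)`. `l.2 ≥ n`: `m.2 ≥ n + b`, so `m = (c, g+a+s)`,
`g + a + s ≥ n + b`: `g ≥ 2b`, `g = 2b + j` with `j < t`(`g < n`), `l = (c, g+t)`, `R = move t vac (c, g)`.
Third case of SUP, `x₁ = a+b+i`, `x₂ = s+b+k`, places `(c,x₁)`, `(c',x₂)` empty, beads `(c,x₁+s)`, `(c',x₂+a)` at places `≥ n`. If `m.2 < n` then `l.2 = m.2 - b < n - b = a + s ≤ x₁, x₂`.. so `l.2 < n` is an empty place: `l.2 + b ≥ x₁ + b ≥ n` or `l.2 + b ≥ x₂ + b ≥ n`: contradiction. So `m = (c, x₁+s)` or `(c', x₂+a)`, `l = (c, x₁+s-b)`, resp. `(c', x₂+a-b)`, at a place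
`< n` (`s, a < b`), so empty: for the first `l ≠ (c, x₁)`, so `l = (c', x₂)`, `c = c'`, `x₂ = x₁ + s - b`, `R = vac` minus `(c, x₁)` plus `(c, x₂+a) = (c, x₁+t)`: `x₁ = 2b + j` (`x₁ = x₂ + b - s ≥ s+b+b-s`), `j < t`, `l = (c, 2b+j-(b-s))`. The second: `l = (c, x₁)`, `x₁ = x₂+a-b`, `R = vac` minus `(c, x₂)` plus `(c, x₁+s) = (c, x₂+t)`, `x₂ = x₁+b-a ≥ 2b`,
`l = (c, x₂-(b-a))`. Uses: SUP. -/
def CLS_stmt : Prop := ∀ (s a b : ℕ), 1 ≤ s → s ≤ a → a < b → b < a + s → ∀ (R : St) (l : Lab), l ∈ addable b R →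
  yv s a b (move b R l) ≠ 0 → ∃ (c : Bool) (j : ℕ), j < a + s - b ∧ R = move (a + s - b) (vac (s + a + b)) (c, 2 * b + j) ∧
    (l = (c, 2 * b + j + (a + s - b)) ∨ l = (c, 2 * b + j - (b - s)) ∨ l = (c, 2 * b + j - (b - a)) ∨ l = (c, b + j))

/-- **LOW** (medium). The value of `Low`. `n = s+a+b`, `w₀ = wT true n 0 s`, `w₁ = wT true n s a`. LB (third part, `b > a`): `Low wl b (Rib w₁ a v) = Rib w₁ a (Low wl b v) + Low W₁ (b-a) v`, `v = Rib w₀ s vac`, `Low wl b v = 0` (LG: `v` has `s < b` boxes), `W₁ l = wl l * w₁ (up (b-a) l) - wl (dn a l) * w₁ (dn a l)`.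
LB (first part, `b - a < s`): `Low W₁ (b-a) (Rib w₀ s vac) = Rib w₀ s (Low W₁ (b-a) vac) + Rib W₂ (s-(b-a)) vac`, `Low W₁ (b-a) vac = 0` (LG), `W₂ l = W₁ (up (s-(b-a)) l) * w₀ l - W₁ (dn (b-a) l) * w₀ (dn (b-a) l)`. So `Low wl b y = Rib W₂ t (single vac 1)`, `t = a+s-b`; its value at `move t vac (c, h)`, `h = 2b+j`, is
`(-1)^cnt W₂ (c, h)` (`move t vac` is injective on `addable t vac`). With `P = h + ix c`, sign `σ`: `W₁ (c,x) = X^(2Q-a) - X^(2Q-2a-b)`, `Q = x + ix c` (for `Q ≥ a+b`; no truncation), `W₂ (c,h) = σ ((X^(2P+2t-a) - X^(2P+2t-2a-b)) X^(P-a-b) - (X^(2P-2(b-a)-a) - X^(2P-2(b-a)-2a-b)) X^(P-(b-a)-a-b))`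
`= σ (X^(3P+2s-3b) - X^(3P+2s-a-4b) - X^(3P+a-4b) + X^(3P-5b))`, `P = 2b + j + ix c`. (Truncated subtractions: `x ≥ 2b > ..`, all exact.) Uses: LB, LG, LOV or RIV. -/
def LOW_stmt : Prop := ∀ (s a b : ℕ), 1 ≤ s → s ≤ a → a < b → b < a + s → ∀ (c : Bool) (j : ℕ), j < a + s - b →
  ∃ ε : ℤ, (ε = 1 ∨ ε = -1) ∧ Low wl b (yv s a b) (move (a + s - b) (vac (s + a + b)) (c, 2 * b + j)) =
    C ε * (X ^ (3 * b + 2 * s + 3 * (j + ix c)) - X ^ (2 * b + 2 * s - a + 3 * (j + ix c)) - X ^ (2 * b + a + 3 * (j + ix c)) +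
      X ^ (b + 3 * (j + ix c)))

/-- **QAD** (medium). The bracket. `R = move t vac (c, 2b+j)`. `I = {l ∈ addable b R | y(move b R l) ≠ 0}`: the other `l` have `zz = 0`. By CLS (and injectivity of `(c, j) ↦ R`) `I ⊆ {four labels}`; for `s = a` the second and the third label are equal, so `I.card ≤ 3`. The `zz R l` are monomials (`SD_vec`). `∑_(l ∈ I) zz = Low wl b y R` (LOV) is the polynomial of LOW:
exponents `A > C ≥ B > E` (`A - B = a+b`, `A - C = 2s+b-a > 0`, `C - B = 2a-2s`, `B - E = 2s+b-a`, `C - E = a+b`). `s < a`: MON with `T = {A, B, C, E}`, `d = ε, -ε, -ε, ε`: `∑ zz² = X^2A + X^2B + X^2C + X^2E`, and `(X^A - X^B - X^C + X^E)² - ∑ zz² = 2 X^(A+E) + 2 X^(B+C) - 2 (X^(A+B) + X^(A+C) + X^(B+E) + X^(C+E))`.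
`s = a`: `B = C`, MON with `T = {A, B, E}`, `d = ε, -2ε, ε`: `∑ zz² = X^2A + 4 X^2B + X^2E`, the difference is `2 X^(A+E) - 4 X^(A+B) - 4 X^(B+E)`. `A+B = 5b+4s-a+6J`, `A+C = 5b+2s+a+6J`, `B+E = 3b+2s-a+6J`, `C+E = 3b+a+6J`, `J = j + ix c`. Uses: LOV, CLS, LOW, MON. -/
def QAD_stmt : Prop := ∀ (s a b : ℕ), 1 ≤ s → s ≤ a → a < b → b < a + s → ∀ (c : Bool) (j : ℕ), j < a + s - b → ∀ (R : St),
  R = move (a + s - b) (vac (s + a + b)) (c, 2 * b + j) → ∀ k,
  (-2 * ng s a b c j).coeff k ≤ ((∑ l ∈ addable b R, zz s a b R l) ^ 2 - ∑ l ∈ addable b R, zz s a b R l ^ 2).coeff k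

/-- **COV** (medium-long; mostly omega). The cover. CVG with `K = Fin 8 × Bool × range t`, all `m = 1`; for `(c, j)` write `J = j + ix c`, `D c g = D3 s a b c g`, `T c i k = T2 s a b c (a+b+i) (s+b+k)`, `κ = j + 1` for `c = true`, `j - 1` for `c = false`, that is, `sh c j` (in `T` only sums `d + sh c j` with `d ≥ 1`: write `sh c (d + j)`).
The pairs `(S, l)` and exponents of `y_S²`, `wl l²` (YV1, YV2, `wl_sq`):
(0) `(D c (a+b+(d+j)), (!c, sh c (2b-d+j)))`: `2(a+s+2(d+J))`, `2(2b-d+J)`; total `5b+2s+a+6J`.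
(1) `(T c (d+j) (sh c (d+a-s+j)), (c, a+b+d+j+s))`: `2(b+2J)`, `2(a+b+d+s+J)`; total `5b+2s+a+6J`.
(2) `(D c (a+b+(2d+j)), (!c, sh c (b+s-d+j)))`: `2(a+s+2(2d+J))`, `2(b+s-d+J)`; total `5b+4s-a+6J`.
(3) `(D c (a+b+(2d+j)), (c, b+s-d+j))`: the same exponents.
(4) `(D c (b+(d+j)), (!c, sh c (b+t+d+j)))`: `4(d+J)`, `2(b+t+d+J)`; total `3b+2s-a+6J`.
(5) `(T c (d+j) (sh c (d+j)), (c, a+d+j))`: `2(s+2d+2J)`, `2(a+d+J)`; total `3b+2s-a+6J`.
(6) `(D c (b+j), (!c, sh c (2b-d+j)))`: `4J`, `2(2b-d+J)`; total `3b+a+6J`.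
(7) `(D c (b+j), (c, 2b-d+j))`: the same exponents.
Indices in range: `2d + j < s`, `sh c (d+a-s+j) < a`, `sh c (d+j) < a`. Addable: in `D c g` all `(c', x)` with `a + s ≤ x < n` are addable by `b` except `(c, g)` and `(c, g+a+s-b)`; check `x` for each pair. In (1) the bead `(c, x₁+s)` moves to a place `> n` with no bead; in (5) `x₁ - b = a+d+j` is a bead and `x₁` is empty.
DIFFERENT: `D c g` determines `(c, g)` (the only empty place `< n`), `T c i k` has one empty place `< n` in each component, `(c, a+b+i)` and `(!c, s+b+k)`, and in (1), (5) `l.1 = c`. E.g. the four numbers `hol true S`, `hol false S` (sum of `x+1` over the empty places `x < n` of the component), `l.1`, `l.2` are explicit functions of the index; injectivity by cases and omega: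
same `S` only for (2),(3); (6),(7); (0) and (2),(3) with `d+j = 2d+j'`; (4) and (6),(7) with `d+j = j'`; (1) and (5); and then `l` is different: (0)/(2): `2b-d+j = b+s-d+j'` gives `b - s = j' - j = -d`, no; (4)/(6): `b+t+d+j = 2b-d+j'`, `j' = d+j`: `t = b - d`, but `b - d = a + d > t`. Uses: CVG, YV1, YV2. -/
def COV_stmt : Prop := ∀ (s a b d t : ℕ), 1 ≤ t → 1 ≤ d → s = t + 2 * d → s ≤ a → b = a + 2 * d → ∀ k,
  (2 * ∑ c : Bool, ∑ j ∈ range t, ng s a b c j).coeff k ≤ (DD s a b).coeff k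

/-- **TC1** (short-medium). GEN with `𝓡` = image of `(c, j) ↦ move t vac (c, 2b+j)` on `univ ×ˢ range t`, `t = a+s-b` (CLS); injective; QAD for each, COV (`2d = b - a`, `s = t + 2d`). Uses: GEN, CLS, QAD, COV. -/
def TC1_stmt : Prop := ∀ (s a b : ℕ), 1 ≤ s → s ≤ a → a < b → b < a + s → Even (b - a) → ∀ k, 0 ≤ (PU true (s + a + b) [s, a, b] 0).coeff k

/-! ## D. The case `b = a + s` -/

/-- **CL0** (short-medium). `b = a + s`, `n = 2b`. As in CLS: `S = move b R l`. `S = D3 c g`: `l = (c, g)` (then `m = (c, g+b)` is the moved bead, or a bead `< n`: `g + b ≥ n`), `R = vac`; `l.2 ≥ n`: `m.2 ≥ n + b`, `m = (c, g+b)`, `g ≥ n`, no. Third case: as in CLS the place `l` is empty, `l.2 < n`, `l = (c', x₂)`, `c = c'`, `x₂ = x₁+s-b`: but `x₂ ≥ s+b`, `x₁ < n = 2b`: `x₁ + s - b < s + b`,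
no; `l = (c, x₁)`, `x₁ = x₂ + a - b ≥ a + b`: `x₂ ≥ 2b`, no. So `R = vac`, `l = (c, g)`. Uses: SUP. -/
def CL0_stmt : Prop := ∀ (s a b : ℕ), 1 ≤ s → s ≤ a → b = a + s → ∀ (R : St) (l : Lab), l ∈ addable b R →
  yv s a b (move b R l) ≠ 0 → R = vac (s + a + b) ∧ ∃ i, i < s ∧ (l.2 = a + b + i ∨ l.2 = b + i)

/-- **LO0** (medium). The value at the vacuum. LB (third part): `Low wl b y = Low W₁ s (Rib w₀ s vac)` (as in LOW, `b - a = s`), LB (second part): `= Rib w₀ s (Low W₁ s vac) + Dg f vac`, `Low W₁ s vac = 0` (LG), `f l = W₁ l * w₀ l - if s ≤ l.2 then W₁ (dn s l) * w₀ (dn s l) else 0`. Entry at `vac`: `∑_(l ∈ vac) f l`, telescoping: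
`∑_c ∑_(n-s ≤ x < n) W₁ (c,x) w₀ (c,x)` (for each `c`: `∑_(x<n) g x - ∑_(s ≤ x < n) g (x-s) = ∑_(n-s ≤ x < n) g x`). `x = a+b+i`, `I = i + ix c`: `W₁ w₀ = σ (X^(2Q-a) - X^(2Q-2a-b)) X^(Q-a-b)`, `Q = a+b+I`: `σ (X^(a+2b+3I) - X^(b+3I))`. `∑_(i<s) (X^(3(i+1)) - X^(3i)) = X^(3s) - 1`. Uses: LB, LG. -/
def LO0_stmt : Prop := ∀ (s a b : ℕ), 1 ≤ s → s ≤ a → b = a + s →
  Low wl b (yv s a b) (vac (s + a + b)) = (X ^ (a + 2 * b) - X ^ b) * (X ^ (3 * s) - 1)

/-- **MS0** (short-medium). The sum of squares at the vacuum: by CL0 only `l = (c, a+b+i)`, `(c, b+i)`, `i < s` (all in `addable b vac`: `l.2 + b ≥ n = 2b`), `move b vac (c, g) = D3 c g` (`b = a + s`), YV1: `zz² = y² wl²`, exponents `2(a+s+2I) + 2(a+b+I)`, `4I + 2(b+I)`, `I = i + ix c`. (`a + b + i ≠ b + i'` as `i' < s ≤ a`.) Uses: CL0, YV1. -/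
def MS0_stmt : Prop := ∀ (s a b : ℕ), 1 ≤ s → s ≤ a → b = a + s →
  ∑ l ∈ addable b (vac (s + a + b)), zz s a b (vac (s + a + b)) l ^ 2 =
    ∑ c : Bool, ∑ i ∈ range s, (X ^ (4 * a + 2 * s + 2 * b + 6 * (i + ix c)) + X ^ (2 * b + 6 * (i + ix c)))

/-- **CO0** (medium-long; mostly omega). The cover for `b = a + s`, `s = 2u`, `n = 2b`. CVG (`ι = Fin 10 × Bool × ℕ` or a sum of cases). `D c g = D3 s a b c g`, `T c i k = T2 s a b c (a+b+i) (s+b+k)`, `I = i + ix c`. Pairs: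
(0) `(D c (a+b+i), (!c, sh c (a+b+i)))`, `i < s`, except `(c, i) = (true, s-1)`: exponent `4a+2s+2b+6I`. (1) `(D c (b+i), (!c, sh c (b+i)))`, `i < s`, except `(false, 0)`: `2b+6I`.
(2) `(T true (u-1) (a-u), (true, 2b-u-1+s))`, `(T false u (a-u-1), (false, 2b-u+s))`: `y = ± X^(a+s)`, `wl² = X^(2(2b+u))`, total `4b+2a+3s = 2b+5s+4a`. (3) `(T false u (u-1), (false, b-u))`, `(T true (u-1) u, (true, b-u-1))`: `y = ± X^(2s)`, `wl² = X^(2(b-u))`, total `2b+3s`.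
If `a > s`: (4) `(D true (a+b+(u-1)), (false, 2b+u-a))`, `(D false (a+b+u), (true, 2b+u-a-1))`: `y = ± X^(a+2s)`, total `2(a+2s) + 2(2b+u-a) = 4b+5s = 2b+7s+2a`. (5) `(D false (b+u), (true, 2b-3u-1))`, `(D true (b+(u-1)), (false, 2b-3u))`: `y = ± X^s`, total `2s + 2(2b-3u) = 4b-s = 2b+s+2a`. If `a = s` the entries `y²` in (2), (3) are `4 X^..` (YV2), `m = 4`, and
`2b+7s+2a = 2b+5s+4a`, `2b+s+2a = 2b+3s`. (In YV1 the indices are `i < s`; `2b - u = a+b+u`.) Addable: `(c', x)` with `b ≤ x < n` in `D c g` is addable except `(c, g)`; as in COV for `T`. DIFFERENT: as in COV: (0), (4) can have the same `S`: `l.2 = 2b-u` against `2b+u-a`: different as `a ≠ 2u`; (1), (5): `b+u-1` against `2b-3u-1`: different as `b ≠ 4u`. (2), (3): `x₁ + s` against `x₁ - b`; for different `c` the `l.1` differ.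
The rest of the sum `∑_c ∑_i` in the statement consists of the two exceptions: `(true, s-1)` in (0): `X^(4a+2s+2b+6s)`, `(false, 0)` in (1): `X^(2b)`. Uses: CVG, YV1, YV2. -/
def CO0_stmt : Prop := ∀ (s a b u : ℕ), 1 ≤ u → s = 2 * u → s ≤ a → b = a + s → ∀ k,
  (∑ c : Bool, ∑ i ∈ range s, (X ^ (4 * a + 2 * s + 2 * b + 6 * (i + ix c)) + X ^ (2 * b + 6 * (i + ix c))) -
    X ^ (4 * a + 8 * s + 2 * b) - X ^ (2 * b) + 2 * X ^ (2 * b + 5 * s + 4 * a) + 2 * X ^ (2 * b + 7 * s + 2 * a) + 2 * X ^ (2 * b + s + 2 * a) +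
    2 * X ^ (2 * b + 3 * s) : ℤ[X]).coeff k ≤ (DD s a b).coeff k

/-- **TC0** (short-medium). GEN with `𝓡 = {vac}` (CL0), LOV + LO0: `(∑ zz)² = ((X^(a+2b) - X^b)(X^(3s) - 1))²`. `a + 2b = b + 2a + s`: `= X^(2b) (X^(4s+2a) - X^(s+2a) - X^(3s) + 1)² = X^(2b) (X^(8s+4a) + X^(2s+4a) + X^(6s) + 1 + 4 X^(4s+2a)) - 2 X^(2b+5s+4a) - 2 X^(2b+7s+2a) - 2 X^(2b+s+2a) - 2 X^(2b+3s)`.
MS0, CO0: `P ≥ X^(2b) (X^(2s+4a) + X^(6s) + 4 X^(4s+2a)) ≥ 0`. Uses: GEN, CL0, LOV, LO0, MS0, CO0. -/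
def TC0_stmt : Prop := ∀ (s a b : ℕ), 1 ≤ s → s ≤ a → b = a + s → Even (b - a) → ∀ k, 0 ≤ (PU true (s + a + b) [s, a, b] 0).coeff k

/-! ## E. The classification -/

/-- at most two parts, or `(s, a, b)` with `a + s < b` or `b - a` even -/
def Crit (l : List ℕ) : Prop := l.length ≤ 2 ∨ ∃ s a b, l = [s, a, b] ∧ (a + s < b ∨ Even (b - a))

/-- **CLA** (short-medium). `l` of length `≤ 2` is super-decreasing; so is `[s, a, b]` with `a = b` or `a + s < b`. `[s, a, b]` with `a < b < a + s` or `b = a + s` and `b - a` even: TC1, TC0. (Super-decreasing: `SD` of helper93 gives the coefficients of `P n l = PU true n l 0`, here stated for both cases.) Uses: TC1, TC0. -/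
def CLA_stmt : Prop := ∀ (n : ℕ) (l : List ℕ), Part n l → l.length ≤ 3 → Crit l →
  SuperDecreasing l ∨ ∀ k, 0 ≤ (PU true n l 0).coeff k

end Pool.Agent.TC
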